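import Mathlib
import Pool.Agent.Helper613.HSThree
import Pool.Agent.Helper613.HSJstarbody

open Set

namespace Pool.Agent.Results.MP_bd4439_gt.Full

/-- Euclidean space of dimension `n`. -/
abbrev E (n : ℕ) := EuclideanSpace ℝ (Fin n)

/-- The radial function `ρ_K(u) = max {a ≥ 0 : a u ∈ K}` (the supremum is attained for compact `K`). -/
noncomputable def radial {n : ℕ} (K : Set (E n)) (u : E n) : ℝ := sSup {a : ℝ | 0 ≤ a ∧ a • u ∈ K}

/-- A star body (the origin may lie on the boundary and the radial function may vanish in some directions):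
compact, equal to the closure of its interior, star-shaped with respect to the origin, with radial function
continuous on the set of unit vectors where it is positive. -/
structure IsStarBody {n : ℕ} (K : Set (E n)) : Prop where
  isCompact : IsCompact K
  body : K = closure (interior K)
  zero_mem : (0 : E n) ∈ K
  starShaped : ∀ x ∈ K, ∀ t : ℝ, 0 ≤ t → t ≤ 1 → t • x ∈ K
  radial_cont : ContinuousOn (radial K) {u : E n | ‖u‖ = 1 ∧ 0 < radial K u}

/-- `A = x + l B` for some vector `x` and some `l > 0`. -/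
def Homothetic {n : ℕ} (A B : Set (E n)) : Prop := ∃ (x : E n) (l : ℝ), 0 < l ∧ A = {y | ∃ b ∈ B, y = x + l • b}

/-- Star bodies (origin anywhere, possibly on the boundary) with homothetic `k`-dimensional central sections are homothetic,
for all `n ≥ 3` and `2 ≤ k ≤ n - 1`. -/
theorem result : ∀ n k : ℕ, 3 ≤ n → 2 ≤ k → k ≤ n - 1 → ∀ K L : Set (E n), IsStarBody K → IsStarBody L →
    (∀ S : Submodule ℝ (E n), Module.finrank ℝ S = k → Homothetic (K ∩ S) (L ∩ S)) → Homothetic K L := by
  intro n k hn hk hkn K L hK hL h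
  have hfin : Module.finrank ℝ (E n) = n := finrank_euclideanSpace_fin
  have sK : Helper613.HS.Star K := Helper613.HS.star_of_radial hK.isCompact hK.zero_mem hK.starShaped hK.radial_cont
  have sL : Helper613.HS.Star L := Helper613.HS.star_of_radial hL.isCompact hL.zero_mem hL.starShaped hL.radial_cont
  obtain ⟨x, r, hr, hx⟩ := Helper613.HS.general (k := k) (by rw [hfin]; exact hn) hk (by rw [hfin]; omega) sK sL (by
    intro S hS
    obtain ⟨x, r, hr, hx⟩ := h S hS
    have hxS : x ∈ S := by
      have h0 : x ∈ {y | ∃ b ∈ L ∩ (S : Set (E n)), y = x + r • b} := ⟨0, ⟨hL.zero_mem, S.zero_mem⟩, by rw [smul_zero, add_zero]⟩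
      rw [← hx] at h0
      exact h0.2
    refine ⟨x, r, hr, hxS, fun y hy => ⟨fun hyL => ?_, fun hyK => ?_⟩⟩
    · have h1 : x + r • y ∈ {y | ∃ b ∈ L ∩ (S : Set (E n)), y = x + r • b} := ⟨y, ⟨hyL, hy⟩, rfl⟩
      rw [← hx] at h1
      exact h1.1
    · have h1 : x + r • y ∈ K ∩ (S : Set (E n)) := ⟨hyK, S.add_mem hxS (S.smul_mem r hy)⟩
      rw [hx] at h1
      obtain ⟨b, hb, hby⟩ := h1
      have h2 : y = b := by
        have h3 : r • y = r • b := add_left_cancel hby
        have h4 := congrArg (fun z => r⁻¹ • z) h3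
        simpa [smul_smul, inv_mul_cancel₀ hr.ne'] using h4
      rw [h2]; exact hb.1)
  refine ⟨x, r, hr, ?_⟩
  ext z
  constructor
  · intro hz
    refine ⟨r⁻¹ • (z - x), ?_, ?_⟩
    · rw [hx, smul_smul, mul_inv_cancel₀ hr.ne', one_smul, add_sub_cancel]
      exact hz
    · rw [smul_smul, mul_inv_cancel₀ hr.ne', one_smul, add_sub_cancel]
  · rintro ⟨b, hb, rfl⟩
    exact (hx b).1 hb

end Pool.Agent.Results.MP_bd4439_gt.Full
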