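import Mathlib
import Pool.Agent.Helper104.HmGen

open Set

namespace Pool.Agent.Results.MP_bd4439_gt.InteriorOrigin

/-- Euclidean space of dimension `n`. -/
abbrev E (n : ℕ) := EuclideanSpace ℝ (Fin n)

/-- The radial function `ρ_K(u) = max {a ≥ 0 : a u ∈ K}` (the supremum is attained for compact `K`). -/
noncomputable def radial {n : ℕ} (K : Set (E n)) (u : E n) : ℝ := sSup {a : ℝ | 0 ≤ a ∧ a • u ∈ K}

/-- A star body (with the origin possibly on the boundary): compact, equal to the closure of its
interior, star-shaped with respect to the origin, with radial function continuous on the set of unit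
vectors where it is positive. -/
structure IsStarBody {n : ℕ} (K : Set (E n)) : Prop where
  isCompact : IsCompact K
  body : K = closure (interior K)
  zero_mem : (0 : E n) ∈ K
  starShaped : ∀ x ∈ K, ∀ t : ℝ, 0 ≤ t → t ≤ 1 → t • x ∈ K
  radial_cont : ContinuousOn (radial K) {u : E n | ‖u‖ = 1 ∧ 0 < radial K u}

/-- `A = x + l B` for some vector `x` and some `l > 0`. -/
def Homothetic {n : ℕ} (A B : Set (E n)) : Prop := ∃ (x : E n) (l : ℝ), 0 < l ∧ A = {y | ∃ b ∈ B, y = x + l • b}

lemma homothetic_iff {n : ℕ} (A B : Set (E n)) : Homothetic A B ↔ Helper104.TrSec.Homothets A B := by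
  have e : ∀ (l : ℝ) (x : E n), {y | ∃ b ∈ B, y = x + l • b} = (fun b => x + l • b) '' B := by
    intro l x
    ext y
    constructor
    · rintro ⟨a, ha, rfl⟩
      exact ⟨a, ha, rfl⟩
    · rintro ⟨a, ha, rfl⟩
      exact ⟨a, ha, rfl⟩
  constructor
  · rintro ⟨x, l, hl, hx⟩
    exact ⟨x, l, hl, by rw [hx, e]⟩
  · rintro ⟨x, l, hl, hx⟩
    exact ⟨x, l, hl, by rw [hx, e]⟩

lemma starBody_conv {n : ℕ} {K : Set (E n)} (hK : IsStarBody K) (h0 : (0 : E n) ∈ interior K) : Helper104.TrSec.IsStarBody K := by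
  have hpos : ∀ u : E n, ‖u‖ = 1 → 0 < radial K u := by
    intro u hu
    rw [mem_interior_iff_mem_nhds, Metric.mem_nhds_iff] at h0
    obtain ⟨ε, hε, hball⟩ := h0
    have hmem : (ε / 2) • u ∈ K := by
      apply hball
      rw [mem_ball_zero_iff, norm_smul, hu, mul_one, Real.norm_eq_abs, abs_of_pos (by positivity)]
      linarith
    have hbdd : BddAbove {t : ℝ | 0 ≤ t ∧ t • u ∈ K} := by
      obtain ⟨R, hR⟩ := hK.isCompact.isBounded.exists_norm_le
      refine ⟨R, fun t ht => ?_⟩
      have := hR _ ht.2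
      rw [norm_smul, hu, mul_one, Real.norm_eq_abs, abs_of_nonneg ht.1] at this
      exact this
    exact lt_of_lt_of_le (by positivity : 0 < ε / 2) (le_csSup hbdd ⟨by positivity, hmem⟩)
  refine ⟨hK.isCompact, ?_, fun u hu => hpos u (mem_sphere_zero_iff_norm.1 hu), ?_⟩
  · intro x hx a b ha hb hab
    rw [smul_zero, zero_add]
    exact hK.starShaped x hx b hb (by linarith)
  · refine hK.radial_cont.mono ?_
    intro u hu
    exact ⟨mem_sphere_zero_iff_norm.1 hu, hpos u (mem_sphere_zero_iff_norm.1 hu)⟩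

/-- Homothetic sections determine star bodies up to homothety when the origin is interior to both. -/
theorem result : ∀ n k : ℕ, 3 ≤ n → 2 ≤ k → k ≤ n - 1 → ∀ K L : Set (E n), IsStarBody K → IsStarBody L →
    (0 : E n) ∈ interior K → (0 : E n) ∈ interior L →
    (∀ S : Submodule ℝ (E n), Module.finrank ℝ S = k → Homothetic (K ∩ S) (L ∩ S)) → Homothetic K L := by
  intro n k hn hk hkn K L hK hL h0K h0L h
  rw [homothetic_iff]
  refine Helper104.TrSec.hm_main (k := k) hk ?_ (starBody_conv hK h0K) (starBody_conv hL h0L) ?_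
  · rw [finrank_euclideanSpace_fin]; omega
  · intro S hS
    rw [← homothetic_iff]
    exact h S hS

end Pool.Agent.Results.MP_bd4439_gt.InteriorOrigin
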